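import Pool.Agent.H261R3.LN.UStmts

/-! Project LM, task U4 (MP_e25190_gt): the universal covering of a compact Lipschitz neighbourhood
retract with finite fundamental group is a Lipschitz neighbourhood retract. -/

set_option autoImplicit false

open scoped NNReal ENNReal unitInterval

namespace Pool.Agent.H825R3.LN

open Pool.Agent.H261R3.LH (Lip1 IsLNR clip clip_nonneg)
open Pool.Agent.H261R3.LN

/-- A Lipschitz neighbourhood retract of any finite-dimensional normed space is an LNR. -/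
theorem isLNR_of_findim {E V : Type} [MetricSpace E] [NormedAddCommGroup V] [NormedSpace ℝ V]
    [FiniteDimensional ℝ V] (j : E → V) (R : V → E) (K : ℝ≥0) (ρ : ℝ) (hρ : 0 < ρ)
    (hj : LipschitzWith K j) (hR : LipschitzOnWith K R (Metric.thickening ρ (Set.range j)))
    (hRj : ∀ x, R (j x) = x) : IsLNR E := by
  have hfr : Module.finrank ℝ V = Module.finrank ℝ (EuclideanSpace ℝ (Fin (Module.finrank ℝ V))) := by
    rw [finrank_euclideanSpace_fin]
  let Φ : V ≃L[ℝ] EuclideanSpace ℝ (Fin (Module.finrank ℝ V)) :=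
    ContinuousLinearEquiv.ofFinrankEq hfr
  set A : ℝ≥0 := ‖(Φ : V →L[ℝ] EuclideanSpace ℝ (Fin (Module.finrank ℝ V)))‖₊ with hA
  set B : ℝ≥0 := ‖(Φ.symm : EuclideanSpace ℝ (Fin (Module.finrank ℝ V)) →L[ℝ] V)‖₊ with hB
  have hΦ : LipschitzWith A Φ := Φ.lipschitz
  have hΨ : LipschitzWith B Φ.symm := Φ.symm.lipschitz
  have hB1 : (0 : ℝ) < B + 1 := by positivity
  refine ⟨Module.finrank ℝ V, fun x => Φ (j x), fun w => R (Φ.symm w), max (A * K) (K * B),
    ρ / (B + 1), by positivity, ?_, ?_, ?_⟩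
  · exact (hΦ.comp hj).weaken (le_max_left _ _)
  · have h1 : LipschitzOnWith (K * B) (fun w => R (Φ.symm w))
        (Metric.thickening (ρ / (B + 1)) (Set.range fun x => Φ (j x))) := by
      have hm : Set.MapsTo (fun w => Φ.symm w)
          (Metric.thickening (ρ / (B + 1)) (Set.range fun x => Φ (j x)))
          (Metric.thickening ρ (Set.range j)) := by
        intro w hw
        rw [Metric.mem_thickening_iff] at hw ⊢
        obtain ⟨_, ⟨x, rfl⟩, hx⟩ := hw
        refine ⟨j x, ⟨x, rfl⟩, ?_⟩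
        have h2 := hΨ.dist_le_mul w (Φ (j x))
        rw [Φ.symm_apply_apply] at h2
        have h3 : (B : ℝ) * dist w (Φ (j x)) ≤ (B + 1) * dist w (Φ (j x)) := by
          nlinarith [dist_nonneg (x := w) (y := Φ (j x))]
        have h4 : ((B : ℝ) + 1) * dist w (Φ (j x)) < (B + 1) * (ρ / (B + 1)) :=
          mul_lt_mul_of_pos_left hx hB1
        have h5 : ((B : ℝ) + 1) * (ρ / (B + 1)) = ρ := by field_simp
        linarith
      exact hR.comp (hΨ.lipschitzOnWith) hm
    exact h1.weaken (le_max_right _ _)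
  · intro x
    simp only [Φ.symm_apply_apply, hRj]

/-- The covering space over an LNR is an LNR, abstractly. -/
theorem isLNR_of_lift {E S : Type} [MetricSpace E] [CompactSpace E] [MetricSpace S] [CompactSpace S]
    (hS : IsLNR S) (π : E → S) (lift : E → S → E) (ε : ℝ) (hε : 0 < ε)
    (P1 : ∀ a b, dist a b < ε → dist (π a) (π b) = dist a b)
    (P2 : ∀ a y, dist (π a) y < ε → π (lift a y) = y ∧ dist a (lift a y) = dist (π a) y)
    (P3 : ∀ a b, dist a b < ε → lift a (π b) = b) (p0 : E) : IsLNR E := by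
  classical
  obtain ⟨m, ι, r, K, ρ, hρ, hι, hr, hrι⟩ := hS
  -- bounds
  obtain ⟨DS, hDS⟩ : ∃ D : ℝ, ∀ x y : S, dist x y ≤ D :=
    ⟨Metric.diam (Set.univ : Set S), fun x y =>
      Metric.dist_le_diam_of_mem isCompact_univ.isBounded (Set.mem_univ x) (Set.mem_univ y)⟩
  obtain ⟨DE, hDE⟩ : ∃ D : ℝ, ∀ x y : E, dist x y ≤ D :=
    ⟨Metric.diam (Set.univ : Set E), fun x y =>
      Metric.dist_le_diam_of_mem isCompact_univ.isBounded (Set.mem_univ x) (Set.mem_univ y)⟩
  have hDS0 : 0 ≤ DS := le_trans dist_nonneg (hDS (π p0) (π p0))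
  have hDE0 : 0 ≤ DE := le_trans dist_nonneg (hDE p0 p0)
  -- Lipschitz constant of the projection
  set C : ℝ := 1 + DS / ε with hC
  have hC0 : 0 ≤ C := by positivity
  have hπ : ∀ a b, dist (π a) (π b) ≤ C * dist a b := by
    intro a b
    by_cases h : dist a b < ε
    · rw [P1 a b h]
      have h1 : 0 ≤ DS / ε * dist a b := by positivity
      rw [hC]
      nlinarith
    · push Not at h
      have h1 := hDS (π a) (π b)
      have h2 : DS / ε * ε ≤ DS / ε * dist a b := mul_le_mul_of_nonneg_left h (by positivity)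
      have h3 : DS / ε * ε = DS := by field_simp
      rw [hC]
      nlinarith [dist_nonneg (x := a) (y := b)]
  -- the net
  set ε1 : ℝ := ε / 64 with hε1
  have hε1p : 0 < ε1 := by positivity
  obtain ⟨t, -, htf, ht⟩ := Metric.totallyBounded_iff.1 (isCompact_univ (X := E)).totallyBounded ε1 hε1p |>.elim
    (fun t h => (⟨t, trivial, h.1, h.2⟩ : ∃ t : Set E, True ∧ t.Finite ∧
      Set.univ ⊆ ⋃ y ∈ t, Metric.ball y ε1))
  haveI : Fintype t := htf.fintype
  let ψ : E → (t → ℝ) := fun e i => max 0 (2 * ε1 - dist e i)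
  have hψ : ∀ e e', dist (ψ e) (ψ e') ≤ dist e e' := by
    intro e e'
    rw [dist_pi_le_iff dist_nonneg]
    intro i
    have h1 : |(2 * ε1 - dist e i) - (2 * ε1 - dist e' i)| ≤ dist e e' := by
      have h2 := abs_dist_sub_le e e' (i : E)
      rw [abs_sub_comm]
      convert h2 using 2
      ring
    calc dist (ψ e i) (ψ e' i) = |max 0 (2 * ε1 - dist e i) - max 0 (2 * ε1 - dist e' i)| := rfl
      _ ≤ |(2 * ε1 - dist e i) - (2 * ε1 - dist e' i)| := by
          rw [max_comm 0, max_comm 0]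
          exact abs_max_sub_max_le_abs _ _ _
      _ ≤ dist e e' := h1
  have hnear : ∀ e e', dist (ψ e) (ψ e') ≤ ε1 → dist e e' < 3 * ε1 := by
    intro e e' h
    have h1 : e ∈ ⋃ y ∈ t, Metric.ball y ε1 := ht (Set.mem_univ e)
    simp only [Set.mem_iUnion] at h1
    obtain ⟨y, hy, hey⟩ := h1
    rw [Metric.mem_ball] at hey
    have h2 := dist_le_pi_dist (ψ e) (ψ e') ⟨y, hy⟩
    have h3 : ψ e ⟨y, hy⟩ = max 0 (2 * ε1 - dist e y) := rfl
    have h4 : ψ e' ⟨y, hy⟩ = max 0 (2 * ε1 - dist e' y) := rfl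
    have h5 : 2 * ε1 - dist e y ≤ ψ e ⟨y, hy⟩ := by rw [h3]; exact le_max_right _ _
    have h6 : |ψ e ⟨y, hy⟩ - ψ e' ⟨y, hy⟩| ≤ ε1 := le_trans h2 h
    have h7 := (abs_le.1 h6).2
    have h8 : 0 < ψ e' ⟨y, hy⟩ := by linarith
    have h9 : dist e' y < 2 * ε1 := by
      rw [h4] at h8
      rcases lt_max_iff.1 h8 with h | h
      · exact absurd h (lt_irrefl _)
      · linarith
    have h10 := dist_triangle_right e e' y
    linarith
  -- the embedding
  let j : E → EuclideanSpace ℝ (Fin m) × (t → ℝ) := fun e => (ι (π e), ψ e)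
  set ρ' : ℝ := min ρ (min (ε1 / 3) (ε1 / (K + 1))) with hρ'
  have hK1 : (0 : ℝ) < K + 1 := by positivity
  have hρ'p : 0 < ρ' := by
    refine lt_min hρ (lt_min (by positivity) (by positivity))
  have hρ'1 : ρ' ≤ ρ := min_le_left _ _
  have hρ'2 : ρ' ≤ ε1 / 3 := (min_le_right _ _).trans (min_le_left _ _)
  have hρ'3 : K * ρ' ≤ ε1 := by
    have h1 : ρ' ≤ ε1 / (K + 1) := (min_le_right _ _).trans (min_le_right _ _)
    have h2 : (K : ℝ) * ρ' ≤ K * (ε1 / (K + 1)) := mul_le_mul_of_nonneg_left h1 K.2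
    have h3 : (K : ℝ) * (ε1 / (K + 1)) ≤ (K + 1) * (ε1 / (K + 1)) :=
      mul_le_mul_of_nonneg_right (by linarith) (by positivity)
    have h4 : ((K : ℝ) + 1) * (ε1 / (K + 1)) = ε1 := by field_simp
    linarith
  have hd1 : ∀ (v w : EuclideanSpace ℝ (Fin m) × (t → ℝ)), dist v.1 w.1 ≤ dist v w := fun v w => by
    rw [Prod.dist_eq]; exact le_max_left _ _
  have hd2 : ∀ (v w : EuclideanSpace ℝ (Fin m) × (t → ℝ)), dist v.2 w.2 ≤ dist v w := fun v w => by
    rw [Prod.dist_eq]; exact le_max_right _ _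
  let R : EuclideanSpace ℝ (Fin m) × (t → ℝ) → E := fun v =>
    if h : ∃ e, dist v (j e) < ρ' then lift h.choose (r v.1) else p0
  have hRspec : ∀ v, (∃ e, dist v (j e) < ρ') → ∃ e, dist v (j e) < ρ' ∧ R v = lift e (r v.1) := by
    intro v hv
    refine ⟨hv.choose, hv.choose_spec, ?_⟩
    simp only [R]
    rw [dif_pos hv]
  -- the first coordinate
  have hfirst : ∀ (v : EuclideanSpace ℝ (Fin m) × (t → ℝ)) (e : E), dist v (j e) < ρ' →
      v.1 ∈ Metric.thickening ρ (Set.range ι) ∧ dist (π e) (r v.1) ≤ ε1 := by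
    intro v e hve
    have h1 : dist v.1 (ι (π e)) < ρ' := lt_of_le_of_lt (hd1 v (j e)) hve
    have h2 : v.1 ∈ Metric.thickening ρ (Set.range ι) := by
      rw [Metric.mem_thickening_iff]
      exact ⟨ι (π e), ⟨_, rfl⟩, lt_of_lt_of_le h1 hρ'1⟩
    have h3 : ι (π e) ∈ Metric.thickening ρ (Set.range ι) := by
      rw [Metric.mem_thickening_iff]
      exact ⟨ι (π e), ⟨_, rfl⟩, by rw [dist_self]; exact hρ⟩
    refine ⟨h2, ?_⟩
    have h4 := hr.dist_le_mul _ h3 _ h2
    rw [hrι] at h4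
    have h5 : (K : ℝ) * dist (ι (π e)) v.1 ≤ K * ρ' :=
      mul_le_mul_of_nonneg_left (by rw [dist_comm]; exact h1.le) K.2
    linarith
  have hclose : ∀ (v v' : EuclideanSpace ℝ (Fin m) × (t → ℝ)) (e e' : E), dist v (j e) < ρ' →
      dist v' (j e') < ρ' → dist v v' < ρ' → dist e e' < 3 * ε1 := by
    intro v v' e e' h1 h2 h3
    apply hnear
    have h4 : dist (j e) (j e') ≤ dist v (j e) + dist v v' + dist v' (j e') := by
      have h5 := dist_triangle (j e) v (j e')
      have h6 := dist_triangle v v' (j e')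
      rw [dist_comm (j e) v] at h5
      linarith
    have h7 := hd2 (j e) (j e')
    have h8 : dist (j e).2 (j e').2 = dist (ψ e) (ψ e') := rfl
    rw [h8] at h7
    linarith
  have h4ε : 4 * ε1 < ε := by rw [hε1]; linarith
  have h5ε : 5 * ε1 < ε := by rw [hε1]; linarith
  refine isLNR_of_findim j R
    (max (max (K * C.toNNReal) 1) (max K (DE / ρ').toNNReal)) ρ' hρ'p ?_ ?_ ?_
  · refine LipschitzWith.weaken ?_ (le_max_left _ _)
    apply LipschitzWith.of_dist_le_mul
    intro a b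
    rw [Prod.dist_eq]
    apply max_le
    · have h1 := hι.dist_le_mul (π a) (π b)
      have h2 : (K : ℝ) * dist (π a) (π b) ≤ K * (C * dist a b) :=
        mul_le_mul_of_nonneg_left (hπ a b) K.2
      have h3 : ((max (K * C.toNNReal) 1 : ℝ≥0) : ℝ) * dist a b ≥ (K * C) * dist a b := by
        apply mul_le_mul_of_nonneg_right _ dist_nonneg
        have h4 : ((K * C.toNNReal : ℝ≥0) : ℝ) = K * C := by
          rw [NNReal.coe_mul, Real.coe_toNNReal _ hC0]
        rw [← h4]
        exact_mod_cast le_max_left _ _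
      show dist (ι (π a)) (ι (π b)) ≤ _
      nlinarith
    · have h1 := hψ a b
      have h3 : ((max (K * C.toNNReal) 1 : ℝ≥0) : ℝ) * dist a b ≥ 1 * dist a b := by
        apply mul_le_mul_of_nonneg_right _ dist_nonneg
        have h4 : (1 : ℝ≥0) ≤ max (K * C.toNNReal) 1 := le_max_right _ _
        exact_mod_cast h4
      show dist (ψ a) (ψ b) ≤ _
      linarith
  · refine LipschitzOnWith.weaken ?_ (le_max_right _ _)
    apply LipschitzOnWith.of_dist_le_mul
    intro v hv v' hv'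
    rw [Metric.mem_thickening_iff] at hv hv'
    obtain ⟨_, ⟨e0, rfl⟩, he0⟩ := hv
    obtain ⟨_, ⟨e0', rfl⟩, he0'⟩ := hv'
    obtain ⟨e, he, hRe⟩ := hRspec v ⟨e0, he0⟩
    obtain ⟨e', he', hRe'⟩ := hRspec v' ⟨e0', he0'⟩
    obtain ⟨hf1, hf2⟩ := hfirst v e he
    obtain ⟨hf1', hf2'⟩ := hfirst v' e' he'
    obtain ⟨g1, g2⟩ := P2 e (r v.1) (by linarith)
    obtain ⟨g1', g2'⟩ := P2 e' (r v'.1) (by linarith)
    by_cases h : dist v v' < ρ'
    · have h1 := hclose v v' e e' he he' h
      have h2 : dist (R v) (R v') < ε := by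
        rw [hRe, hRe']
        have h3 := dist_triangle (lift e (r v.1)) e (lift e' (r v'.1))
        have h4 := dist_triangle e e' (lift e' (r v'.1))
        rw [dist_comm (lift e (r v.1)) e, g2] at h3
        rw [g2'] at h4
        linarith
      have h5 := P1 _ _ h2
      rw [← h5]
      have h6 : π (R v) = r v.1 := by rw [hRe, g1]
      have h7 : π (R v') = r v'.1 := by rw [hRe', g1']
      rw [h6, h7]
      have h8 := hr.dist_le_mul _ hf1 _ hf1'
      have h9 : (K : ℝ) * dist v.1 v'.1 ≤ K * dist v v' :=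
        mul_le_mul_of_nonneg_left (hd1 v v') K.2
      have h10 : (K : ℝ) * dist v v' ≤ ((max K (DE / ρ').toNNReal : ℝ≥0) : ℝ) * dist v v' := by
        apply mul_le_mul_of_nonneg_right _ dist_nonneg
        exact_mod_cast le_max_left _ _
      linarith
    · push Not at h
      have h1 := hDE (R v) (R v')
      have h2 : DE / ρ' * ρ' ≤ DE / ρ' * dist v v' := mul_le_mul_of_nonneg_left h (by positivity)
      have h3 : DE / ρ' * ρ' = DE := by field_simp
      have h4 : DE / ρ' * dist v v' ≤ ((max K (DE / ρ').toNNReal : ℝ≥0) : ℝ) * dist v v' := by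
        apply mul_le_mul_of_nonneg_right _ dist_nonneg
        have h5 : (((DE / ρ').toNNReal : ℝ≥0) : ℝ) = DE / ρ' :=
          Real.coe_toNNReal _ (by positivity)
        calc DE / ρ' = (((DE / ρ').toNNReal : ℝ≥0) : ℝ) := h5.symm
          _ ≤ ((max K (DE / ρ').toNNReal : ℝ≥0) : ℝ) := by exact_mod_cast le_max_right _ _
      linarith
  · intro x
    have h1 : ∃ e, dist (j x) (j e) < ρ' := ⟨x, by rw [dist_self]; exact hρ'p⟩
    obtain ⟨e, he, hRe⟩ := hRspec (j x) h1
    rw [hRe]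
    have h2 : dist x e < 3 * ε1 := hclose (j x) (j x) x e (by rw [dist_self]; exact hρ'p) he
      (by rw [dist_self]; exact hρ'p)
    have h3 : (j x).1 = ι (π x) := rfl
    rw [h3, hrι]
    exact P3 e x (by rw [dist_comm]; linarith)

/-- Task U4 from task U2. -/
theorem taskU4 : TaskU2 → TaskU4 := by
  intro hU2 S _ _ _ hS ε hε L p hfin
  letI := ucMetric L hε p
  haveI : CompactSpace (UC p) := hU2 S hS ε hε L p hfin
  have hdist : ∀ a b : UC p, dist a b = ucDist L a b := fun _ _ => rfl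
  have hkey : ∀ a b : UC p, dist a b < ε / 4 →
      dist a.1 b.1 < ε / 4 ∧ a.2.trans (L.seg a.1 b.1) = b.2 := by
    intro a b h
    rw [hdist] at h
    unfold ucDist at h
    split_ifs at h with h1
    · exact h1
    · exact absurd h (lt_irrefl _)
  refine isLNR_of_lift hS (ucProj p)
    (fun a y => (⟨y, a.2.trans (L.seg a.1 y)⟩ : UC p)) (ε / 4) (by positivity) ?_ ?_ ?_
    (⟨p, Path.Homotopic.Quotient.refl p⟩ : UC p)
  · intro a b h
    have h1 := hkey a b h
    rw [hdist]
    unfold ucDist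
    rw [if_pos h1]
    rfl
  · intro a y h
    refine ⟨rfl, ?_⟩
    rw [hdist]
    unfold ucDist
    rw [if_pos ⟨h, rfl⟩]
    rfl
  · intro a b h
    have h1 := hkey a b h
    obtain ⟨y, c⟩ := b
    have h2 : a.2.trans (L.seg a.1 y) = c := h1.2
    show (⟨y, a.2.trans (L.seg a.1 y)⟩ : UC p) = ⟨y, c⟩
    rw [h2]

end Pool.Agent.H825R3.LN
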